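import Pool.Agent.Helper73.RS.St

/-! Project RS (MP_ecaebc_co), module GDI: dilations of good means are good. -/

set_option autoImplicit false

open Filter Topology

namespace Pool.Agent.Helper15.RS

open Pool.Agent.Helper73.RS

theorem holds_GDI : StGDI := by
  intro hLDI hrec n m hn hm
  have hval : ∀ U : Set ℕ, dil n m (ind U) = m (ind {x | n * x ∈ U}) := by
    intro U
    rw [dil_apply n m (Bd.ind U), ind_comp U (fun x => n * x)]
  refine ⟨isMean_dil n hm.mean, fun U hU => ?_, fun U hU => ?_⟩
  · rw [hval]
    refine hm.large _ fun h => hU ((hLDI n 0 _ hn h).mono ?_)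
    rintro y ⟨x, hx, rfl⟩
    exact hx
  · rw [hval]
    exact hm.recur _ fun h => hU (hrec n U hn h)

end Pool.Agent.Helper15.RS
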